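import Mathlib

/-!
# Newton covering numbers of right pyramids over cubes

The Newton covering number of a set `C` of Euclidean space is the least number of congruent
copies of `C` whose union contains an open set containing `C`.
-/

namespace Pool.Agent.Q231.NewtonPyr

open Set Metric

/-- Euclidean `d`-space. -/
abbrev E (d : ℕ) : Type := EuclideanSpace ℝ (Fin d)

/-- `n` congruent copies of `C` (images under isometries of the whole space) have a union that
contains an open set containing `C`. -/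
def Covers {d : ℕ} (C : Set (E d)) (n : ℕ) : Prop :=
  ∃ (g : Fin n → (E d ≃ᵢ E d)) (U : Set (E d)), IsOpen U ∧ C ⊆ U ∧ U ⊆ ⋃ i, g i '' C

/-- The Newton covering number: the least `n` such that `n` congruent copies of `C` cover a
neighbourhood of `C` (it is `⊤` if there is no such `n`). -/
noncomputable def newton {d : ℕ} (C : Set (E d)) : ℕ∞ :=
  ⨅ (n : ℕ) (_ : Covers C n), (n : ℕ∞)

/-- The unit cube `[0,1]^k` of `ℝ^k`. -/
def cube (k : ℕ) : Set (E k) := {x | ∀ i, 0 ≤ x i ∧ x i ≤ 1}

/-- The point `(1/2, …, 1/2, h)` of `ℝ^(k+1)`. -/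
noncomputable def apex (k : ℕ) (h : ℝ) : E (k + 1) :=
  WithLp.toLp 2 (Fin.snoc (fun _ : Fin k => (1 / 2 : ℝ)) h)

/-- The base `[0,1]^k × {0}` of `ℝ^(k+1)`. -/
def base (k : ℕ) : Set (E (k + 1)) :=
  {x | (∀ i : Fin k, 0 ≤ x i.castSucc ∧ x i.castSucc ≤ 1) ∧ x (Fin.last k) = 0}

/-- The right pyramid of height `h` over the unit `k`-cube, a subset of `ℝ^(k+1)`. -/
noncomputable def pyramid (k : ℕ) (h : ℝ) : Set (E (k + 1)) :=
  convexHull ℝ (base k ∪ {apex k h})

theorem newton_le {d : ℕ} {C : Set (E d)} {n : ℕ} (h : Covers C n) : newton C ≤ n :=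
  iInf₂_le n h

theorem le_newton {d : ℕ} {C : Set (E d)} {m : ℕ} (h : ∀ n, n < m → ¬ Covers C n) :
    (m : ℕ∞) ≤ newton C := by
  refine le_iInf₂ fun n hn => ?_
  by_contra hlt
  push Not at hlt
  exact h n (by exact_mod_cast hlt) hn

/-- A body with `m` points at mutual distance at least `D`, `D` an upper bound for its diameter,
has no cover of a neighbourhood by fewer than `m` copies. -/
theorem not_covers {d : ℕ} {C : Set (E d)} {D : ℝ} (hD0 : 0 < D)
    (hD : ∀ x ∈ C, ∀ y ∈ C, dist x y ≤ D) {m n : ℕ} (hnm : n < m) (p : Fin m → E d)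
    (hp : ∀ i, p i ∈ C) (hpd : ∀ i j, i ≠ j → D ≤ dist (p i) (p j)) : ¬ Covers C n := by
  rintro ⟨g, U, hU, hCU, hUg⟩
  -- scale slightly
  have h1 : ∀ i, ∀ᶠ s : ℝ in nhds 1, s • p i ∈ U := by
    intro i
    have hc : ContinuousAt (fun s : ℝ => s • p i) 1 := by fun_prop
    have hmem : U ∈ nhds ((fun s : ℝ => s • p i) 1) := by
      simpa using hU.mem_nhds (hCU (hp i))
    exact hc hmem
  have h2 : ∀ᶠ s : ℝ in nhds 1, ∀ i, s • p i ∈ U := Filter.eventually_all.2 h1
  have h3 : ∀ᶠ s : ℝ in nhdsWithin 1 (Ioi 1), ∀ i, s • p i ∈ U :=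
    h2.filter_mono nhdsWithin_le_nhds
  obtain ⟨s, hs1, hs⟩ := (h3.and self_mem_nhdsWithin).exists
  have hs : 1 < s := hs
  have h4 : ∀ i, ∃ j, s • p i ∈ g j '' C := fun i => mem_iUnion.1 (hUg (hs1 i))
  choose f hf using h4
  have hninj : ¬ Function.Injective f := by
    intro hinj
    have := Fintype.card_le_of_injective f hinj
    simp at this
    omega
  rw [Function.not_injective_iff] at hninj
  obtain ⟨i, j, hij, hne⟩ := hninj
  obtain ⟨x, hx, hxe⟩ := hf i
  obtain ⟨y, hy, hye⟩ := hf j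
  rw [← hij] at hye
  have h5 : dist (s • p i) (s • p j) ≤ D := by
    rw [← hxe, ← hye, (g (f i)).isometry.dist_eq]
    exact hD x hx y hy
  rw [dist_smul₀, Real.norm_of_nonneg (by linarith)] at h5
  have h6 := hpd i j hne
  nlinarith

/-! ### The segment -/

theorem two_le_newton_cube_one : (2 : ℕ∞) ≤ newton (cube 1) := by
  have h : ((2 : ℕ) : ℕ∞) ≤ newton (cube 1) := by
    refine le_newton fun n hn => ?_
    refine not_covers (D := 1) one_pos ?_ hn
      (fun i : Fin 2 => WithLp.toLp 2 (fun _ : Fin 1 => ((i : ℕ) : ℝ))) ?_ ?_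
    · intro x hx y hy
      rw [EuclideanSpace.dist_eq, Fin.sum_univ_one, Real.sqrt_sq dist_nonneg, Real.dist_eq,
        abs_le]
      have h1 := hx 0
      have h2 := hy 0
      constructor <;> linarith [h1.1, h1.2, h2.1, h2.2]
    · intro i j
      fin_cases i <;> simp
    · intro i j hij
      rw [EuclideanSpace.dist_eq, Fin.sum_univ_one, Real.sqrt_sq dist_nonneg, Real.dist_eq]
      fin_cases i <;> fin_cases j <;> simp_all
  exact_mod_cast h

/-! ### Triangles -/

theorem apex_zero (h : ℝ) : apex 1 h 0 = 1 / 2 := by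
  simp [apex, Fin.snoc]

theorem apex_one (h : ℝ) : apex 1 h 1 = h := by
  simp [apex, Fin.snoc]

theorem mem_base_one {x : E 2} : x ∈ base 1 ↔ (0 ≤ x 0 ∧ x 0 ≤ 1) ∧ x 1 = 0 := by
  constructor
  · intro hx
    exact ⟨hx.1 0, hx.2⟩
  · intro hx
    refine ⟨fun i => ?_, hx.2⟩
    fin_cases i
    exact hx.1

theorem mem_pyramid_one {h : ℝ} (hh : 0 < h) {x : E 2} (h0 : 0 ≤ x 1) (h1 : x 1 ≤ 2 * h * x 0)
    (h2 : x 1 ≤ 2 * h * (1 - x 0)) : x ∈ pyramid 1 h := by
  have hle : x 1 ≤ h := by nlinarith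
  set t : ℝ := x 1 / h with ht
  have hth : t * h = x 1 := by rw [ht]; field_simp
  have ht0 : 0 ≤ t := div_nonneg h0 hh.le
  have ht1 : t ≤ 1 := by rw [ht, div_le_one hh]; exact hle
  have hap : apex 1 h ∈ pyramid 1 h := subset_convexHull ℝ _ (Or.inr rfl)
  rcases eq_or_lt_of_le ht1 with hte | htl
  · have hx1 : x 1 = h := by rw [← hth, hte, one_mul]
    have hx0 : x 0 = 1 / 2 := by
      have h3 : 1 ≤ 2 * x 0 := by
        by_contra hcon
        push Not at hcon
        nlinarith
      have h4 : 2 * x 0 ≤ 1 := by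
        by_contra hcon
        push Not at hcon
        nlinarith
      linarith
    have : x = apex 1 h := by
      ext i
      fin_cases i
      · simp [hx0, apex_zero]
      · simp [hx1, apex_one]
    rw [this]
    exact hap
  · have h1t : 0 < 1 - t := by linarith
    let y : E 2 := WithLp.toLp 2 ![(x 0 - t / 2) / (1 - t), 0]
    have hy : y ∈ pyramid 1 h := by
      refine subset_convexHull ℝ _ (Or.inl ?_)
      rw [mem_base_one]
      have e1 : t ≤ 2 * x 0 := by
        have : t * h ≤ 2 * x 0 * h := by rw [hth]; linarith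
        exact le_of_mul_le_mul_right this hh
      have e2 : t ≤ 2 * (1 - x 0) := by
        have : t * h ≤ 2 * (1 - x 0) * h := by rw [hth]; linarith
        exact le_of_mul_le_mul_right this hh
      refine ⟨⟨?_, ?_⟩, ?_⟩
      · simp only [y, Matrix.cons_val_zero]
        exact div_nonneg (by linarith) h1t.le
      · simp only [y, Matrix.cons_val_zero]
        rw [div_le_one h1t]
        linarith
      · simp [y]
    have hxe : x = (1 - t) • y + t • apex 1 h := by
      ext i
      fin_cases i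
      · simp only [y, Fin.zero_eta, PiLp.add_apply, PiLp.smul_apply, smul_eq_mul, apex_zero]
        simp only [Matrix.cons_val_zero]
        field_simp
        ring
      · simp only [y, Fin.mk_one, PiLp.add_apply, PiLp.smul_apply, smul_eq_mul, apex_one]
        simp only [Matrix.cons_val_one, Matrix.cons_val_fin_one, mul_zero, zero_add]
        exact hth.symm
    rw [hxe]
    exact (convex_convexHull ℝ _) hy hap h1t.le ht0 (by ring)

/-- The rotation-translation `(x,y) ↦ (c x + s y + a, - s x + c y + b)`, as an isometry of the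
plane. -/
noncomputable def motion (c s a b : ℝ) (hcs : c ^ 2 + s ^ 2 = 1) : E 2 ≃ᵢ E 2 :=
  IsometryEquiv.mk'
    (fun x => WithLp.toLp 2 ![c * x 0 + s * x 1 + a, -s * x 0 + c * x 1 + b])
    (fun x => WithLp.toLp 2 ![c * (x 0 - a) - s * (x 1 - b), s * (x 0 - a) + c * (x 1 - b)])
    (by
      intro x
      ext i
      fin_cases i
      · simp
        linear_combination (x 0 - a) * hcs
      · simp
        linear_combination (x 1 - b) * hcs)
    (by
      refine Isometry.of_dist_eq fun x y => ?_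
      rw [EuclideanSpace.dist_eq, EuclideanSpace.dist_eq]
      congr 1
      simp only [Fin.sum_univ_two, Real.dist_eq, sq_abs]
      simp
      linear_combination ((x 0 - y 0) ^ 2 + (x 1 - y 1) ^ 2) * hcs)

theorem mem_motion_image {c s a b : ℝ} (hcs : c ^ 2 + s ^ 2 = 1) {C : Set (E 2)} {x : E 2}
    (hx : WithLp.toLp 2 ![c * (x 0 - a) - s * (x 1 - b), s * (x 0 - a) + c * (x 1 - b)] ∈ C) :
    x ∈ motion c s a b hcs '' C := by
  refine ⟨_, hx, ?_⟩
  ext i
  fin_cases i
  · simp [motion, IsometryEquiv.mk']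
    linear_combination (x 0 - a) * hcs
  · simp [motion, IsometryEquiv.mk']
    linear_combination (x 1 - b) * hcs

/-- Two congruent copies of the flat triangle of base `1` and height `1/10` cover a neighbourhood
of it. -/
theorem covers_flat : Covers (pyramid 1 (1 / 10)) 2 := by
  have e1 : (1 : ℝ) ^ 2 + 0 ^ 2 = 1 := by norm_num
  have e2 : (9991 / 10009 : ℝ) ^ 2 + (600 / 10009) ^ 2 = 1 := by norm_num
  refine ⟨![motion 1 0 (-1 / 10) (-3 / 1000) e1,
    motion (9991 / 10009) (600 / 10009) (1 / 10) (46 / 1000) e2],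
    {x : E 2 | -3 / 10000 < x 1 ∧ x 1 < x 0 / 5 + 3 / 10000 ∧
      x 1 < (1 - x 0) / 5 + 3 / 10000}, ?_, ?_, ?_⟩
  · have c0 : Continuous fun x : E 2 => x 0 := by fun_prop
    have c1 : Continuous fun x : E 2 => x 1 := by fun_prop
    have o1 : IsOpen {x : E 2 | -3 / 10000 < x 1} := isOpen_lt continuous_const c1
    have o2 : IsOpen {x : E 2 | x 1 < x 0 / 5 + 3 / 10000} :=
      isOpen_lt c1 ((c0.div_const 5).add continuous_const)
    have o3 : IsOpen {x : E 2 | x 1 < (1 - x 0) / 5 + 3 / 10000} :=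
      isOpen_lt c1 (((continuous_const.sub c0).div_const 5).add continuous_const)
    exact o1.inter (o2.inter o3)
  · -- the pyramid lies in the open set
    refine (convexHull_min (t := {x : E 2 | 0 ≤ x 1 ∧ x 1 ≤ x 0 / 5 ∧ x 1 ≤ (1 - x 0) / 5})
      ?_ ?_).trans ?_
    · rintro x (hx | hx)
      · rw [mem_base_one] at hx
        obtain ⟨⟨h1, h2⟩, h3⟩ := hx
        refine ⟨?_, ?_, ?_⟩ <;> rw [h3] <;> linarith
      · rw [mem_singleton_iff] at hx
        subst hx
        refine ⟨?_, ?_, ?_⟩ <;> rw [apex_one] <;> (try rw [apex_zero]) <;> norm_num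
    · intro x hx y hy α β hα hβ hαβ
      obtain ⟨h1, h2, h3⟩ := hx
      obtain ⟨h4, h5, h6⟩ := hy
      refine ⟨?_, ?_, ?_⟩ <;>
        simp only [PiLp.add_apply, PiLp.smul_apply, smul_eq_mul] <;> nlinarith
    · rintro x ⟨h1, h2, h3⟩
      exact ⟨by linarith, by linarith, by linarith⟩
  · rintro x ⟨h1, h2, h3⟩
    rw [mem_iUnion]
    by_cases hcase : 0 ≤ 600 / 10009 * (x 0 - 1 / 10) + 9991 / 10009 * (x 1 - 46 / 1000)
    · refine ⟨1, ?_⟩
      simp only [Matrix.cons_val_one, Matrix.cons_val_fin_one]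
      refine mem_motion_image e2 (mem_pyramid_one (by norm_num) ?_ ?_ ?_)
      · simpa using hcase
      · simp
        linarith
      · simp
        linarith
    · refine ⟨0, ?_⟩
      push Not at hcase
      simp only [Matrix.cons_val_zero]
      refine mem_motion_image e1 (mem_pyramid_one (by norm_num) ?_ ?_ ?_)
      · simp
        linarith
      · simp
        linarith
      · simp
        linarith

/-- The equilateral triangle needs three copies. -/
theorem three_le_newton_equilateral : (3 : ℕ∞) ≤ newton (pyramid 1 (Real.sqrt 3 / 2)) := by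
  have h3 : Real.sqrt 3 ^ 2 = 3 := Real.sq_sqrt (by norm_num)
  have hap0 := apex_zero (Real.sqrt 3 / 2)
  have hap1 := apex_one (Real.sqrt 3 / 2)
  -- distances between generators
  have hd : ∀ x ∈ base 1 ∪ {apex 1 (Real.sqrt 3 / 2)},
      ∀ y ∈ base 1 ∪ {apex 1 (Real.sqrt 3 / 2)}, dist x y ≤ 1 := by
    intro x hx y hy
    rw [EuclideanSpace.dist_eq, Fin.sum_univ_two, Real.dist_eq, Real.dist_eq, sq_abs, sq_abs,
      Real.sqrt_le_one]
    rcases hx with hx | hx <;> rcases hy with hy | hy
    · rw [mem_base_one] at hx hy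
      obtain ⟨⟨a1, a2⟩, a3⟩ := hx
      obtain ⟨⟨b1, b2⟩, b3⟩ := hy
      rw [a3, b3]
      nlinarith
    · rw [mem_base_one] at hx
      obtain ⟨⟨a1, a2⟩, a3⟩ := hx
      rw [mem_singleton_iff] at hy
      rw [hy, hap0, hap1, a3]
      nlinarith
    · rw [mem_base_one] at hy
      obtain ⟨⟨a1, a2⟩, a3⟩ := hy
      rw [mem_singleton_iff] at hx
      rw [hx, hap0, hap1, a3]
      nlinarith
    · rw [mem_singleton_iff] at hx hy
      rw [hx, hy]
      norm_num
  have hD : ∀ x ∈ pyramid 1 (Real.sqrt 3 / 2), ∀ y ∈ pyramid 1 (Real.sqrt 3 / 2),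
      dist x y ≤ 1 := by
    intro x hx y hy
    obtain ⟨x', hx', y', hy', hle⟩ := convexHull_exists_dist_ge2 hx hy
    exact hle.trans (hd x' hx' y' hy')
  have h : ((3 : ℕ) : ℕ∞) ≤ newton (pyramid 1 (Real.sqrt 3 / 2)) := by
    refine le_newton fun n hn => ?_
    refine not_covers (D := 1) one_pos hD hn
      ![WithLp.toLp 2 ![0, 0], WithLp.toLp 2 ![1, 0], apex 1 (Real.sqrt 3 / 2)] ?_ ?_
    · intro i
      refine subset_convexHull ℝ _ ?_
      fin_cases i
      · left; rw [mem_base_one]; simp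
      · left; rw [mem_base_one]; simp
      · right; rfl
    · intro i j hij
      rw [EuclideanSpace.dist_eq, Fin.sum_univ_two, Real.dist_eq, Real.dist_eq, sq_abs, sq_abs,
        Real.one_le_sqrt]
      fin_cases i <;> fin_cases j
      · exact absurd rfl hij
      · simp
      · simp [hap0, hap1]; nlinarith
      · simp
      · exact absurd rfl hij
      · simp [hap0, hap1]; nlinarith
      · simp [hap0, hap1]; nlinarith
      · simp [hap0, hap1]; nlinarith
      · exact absurd rfl hij
  exact_mod_cast h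

/-! ### Exact values -/

theorem pyramid_one_subset {h : ℝ} (hh : 0 < h) :
    pyramid 1 h ⊆ {x : E 2 | 0 ≤ x 1 ∧ x 1 ≤ 2 * h * x 0 ∧ x 1 ≤ 2 * h * (1 - x 0)} := by
  refine convexHull_min ?_ ?_
  · rintro x (hx | hx)
    · rw [mem_base_one] at hx
      obtain ⟨⟨h1, h2⟩, h3⟩ := hx
      refine ⟨?_, ?_, ?_⟩ <;> rw [h3]
      · positivity
      · have : 0 ≤ 1 - x 0 := by linarith
        positivity
    · rw [mem_singleton_iff] at hx
      subst hx
      refine ⟨?_, ?_, ?_⟩ <;> rw [apex_one] <;> (try rw [apex_zero]) <;> linarith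
  · intro x hx y hy α β hα hβ hαβ
    obtain ⟨h1, h2, h3⟩ := hx
    obtain ⟨h4, h5, h6⟩ := hy
    refine ⟨?_, ?_, ?_⟩ <;>
      simp only [PiLp.add_apply, PiLp.smul_apply, smul_eq_mul]
    · positivity
    · calc α * x 1 + β * y 1 ≤ α * (2 * h * x 0) + β * (2 * h * y 0) := by gcongr
        _ = 2 * h * (α * x 0 + β * y 0) := by ring
    · calc α * x 1 + β * y 1 ≤ α * (2 * h * (1 - x 0)) + β * (2 * h * (1 - y 0)) := by gcongr
        _ = 2 * h * ((α + β) - (α * x 0 + β * y 0)) := by ring
        _ = 2 * h * (1 - (α * x 0 + β * y 0)) := by rw [hαβ]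

/-- Two copies of the unit segment cover a neighbourhood of it. -/
theorem covers_cube_one : Covers (cube 1) 2 := by
  let w : E 1 := WithLp.toLp 2 (fun _ : Fin 1 => (1 / 4 : ℝ))
  refine ⟨![IsometryEquiv.addRight w, IsometryEquiv.addRight (-w)],
    {x : E 1 | -1 / 4 < x 0 ∧ x 0 < 5 / 4}, ?_, ?_, ?_⟩
  · have c0 : Continuous fun x : E 1 => x 0 := by fun_prop
    have o1 : IsOpen {x : E 1 | -1 / 4 < x 0} := isOpen_lt continuous_const c0
    have o2 : IsOpen {x : E 1 | x 0 < 5 / 4} := isOpen_lt c0 continuous_const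
    exact o1.inter o2
  · intro x hx
    have := hx 0
    exact ⟨by linarith [this.1], by linarith [this.2]⟩
  · rintro x ⟨h1, h2⟩
    rw [mem_iUnion]
    by_cases hc : 1 / 4 ≤ x 0
    · refine ⟨0, x - w, ?_, by simp⟩
      intro i
      fin_cases i
      simp [w]
      constructor <;> linarith
    · refine ⟨1, x + w, ?_, by simp⟩
      push Not at hc
      intro i
      fin_cases i
      simp [w]
      constructor <;> linarith

/-- Three translates of the triangle cover a neighbourhood of it. -/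
theorem covers_three {h : ℝ} (hh : 0 < h) : Covers (pyramid 1 h) 3 := by
  let u : Fin 3 → E 2 := ![WithLp.toLp 2 ![-1 / 20, -h / 30], WithLp.toLp 2 ![1 / 20, -h / 30],
    WithLp.toLp 2 ![0, h / 15]]
  let V : Set (E 2) := {x : E 2 | 0 < x 1 ∧ x 1 < 2 * h * x 0 ∧ x 1 < 2 * h * (1 - x 0)}
  have hVo : IsOpen V := by
    have c0 : Continuous fun x : E 2 => x 0 := by fun_prop
    have c1 : Continuous fun x : E 2 => x 1 := by fun_prop
    have o1 : IsOpen {x : E 2 | 0 < x 1} := isOpen_lt continuous_const c1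
    have o2 : IsOpen {x : E 2 | x 1 < 2 * h * x 0} := isOpen_lt c1 (continuous_const.mul c0)
    have o3 : IsOpen {x : E 2 | x 1 < 2 * h * (1 - x 0)} :=
      isOpen_lt c1 (continuous_const.mul (continuous_const.sub c0))
    exact o1.inter (o2.inter o3)
  refine ⟨fun i => IsometryEquiv.addRight (u i), ⋃ i, (fun x => x - u i) ⁻¹' V,
    isOpen_iUnion fun i => hVo.preimage (by fun_prop), ?_, ?_⟩
  · intro x hx
    obtain ⟨h1, h2, h3⟩ := pyramid_one_subset hh hx
    rw [mem_iUnion]
    by_cases ha : h ≤ 3 * x 1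
    · refine ⟨2, ?_, ?_, ?_⟩ <;> simp [u] <;> nlinarith
    · push Not at ha
      by_cases hb : 2 * h ≤ 3 * (2 * h * x 0 - x 1)
      · refine ⟨1, ?_, ?_, ?_⟩ <;> simp [u] <;> nlinarith
      · push Not at hb
        refine ⟨0, ?_, ?_, ?_⟩ <;> simp [u] <;> nlinarith
  · intro x hx
    rw [mem_iUnion] at hx ⊢
    obtain ⟨i, h1, h2, h3⟩ := hx
    exact ⟨i, x - u i, mem_pyramid_one hh h1.le h2.le h3.le, by simp⟩

theorem newton_cube_one : newton (cube 1) = 2 := by
  refine le_antisymm ?_ two_le_newton_cube_one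
  have := newton_le covers_cube_one
  exact_mod_cast this

theorem newton_equilateral : newton (pyramid 1 (Real.sqrt 3 / 2)) = 3 := by
  refine le_antisymm ?_ three_le_newton_equilateral
  have := newton_le (covers_three (h := Real.sqrt 3 / 2) (by positivity))
  exact_mod_cast this

theorem newton_flat : newton (pyramid 1 (1 / 10)) = 2 := by
  refine le_antisymm ?_ ?_
  · have := newton_le covers_flat
    exact_mod_cast this
  · have hd : ∀ x ∈ base 1 ∪ {apex 1 (1 / 10)},
        ∀ y ∈ base 1 ∪ {apex 1 (1 / 10)}, dist x y ≤ 1 := by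
      have hap0 := apex_zero (1 / 10)
      have hap1 := apex_one (1 / 10)
      intro x hx y hy
      rw [EuclideanSpace.dist_eq, Fin.sum_univ_two, Real.dist_eq, Real.dist_eq, sq_abs, sq_abs,
        Real.sqrt_le_one]
      rcases hx with hx | hx <;> rcases hy with hy | hy
      · rw [mem_base_one] at hx hy
        obtain ⟨⟨a1, a2⟩, a3⟩ := hx
        obtain ⟨⟨b1, b2⟩, b3⟩ := hy
        rw [a3, b3]
        nlinarith
      · rw [mem_base_one] at hx
        obtain ⟨⟨a1, a2⟩, a3⟩ := hx
        rw [mem_singleton_iff] at hy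
        rw [hy, hap0, hap1, a3]
        nlinarith
      · rw [mem_base_one] at hy
        obtain ⟨⟨a1, a2⟩, a3⟩ := hy
        rw [mem_singleton_iff] at hx
        rw [hx, hap0, hap1, a3]
        nlinarith
      · rw [mem_singleton_iff] at hx hy
        rw [hx, hy]
        norm_num
    have hD : ∀ x ∈ pyramid 1 (1 / 10), ∀ y ∈ pyramid 1 (1 / 10), dist x y ≤ 1 := by
      intro x hx y hy
      obtain ⟨x', hx', y', hy', hle⟩ := convexHull_exists_dist_ge2 hx hy
      exact hle.trans (hd x' hx' y' hy')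
    have h : ((2 : ℕ) : ℕ∞) ≤ newton (pyramid 1 (1 / 10)) := by
      refine le_newton fun n hn => ?_
      refine not_covers (D := 1) one_pos hD hn
        ![WithLp.toLp 2 ![0, 0], WithLp.toLp 2 ![1, 0]] ?_ ?_
      · intro i
        refine subset_convexHull ℝ _ (Or.inl ?_)
        rw [mem_base_one]
        fin_cases i <;> simp
      · intro i j hij
        rw [EuclideanSpace.dist_eq, Fin.sum_univ_two, Real.dist_eq, Real.dist_eq, sq_abs, sq_abs,
          Real.one_le_sqrt]
        fin_cases i <;> fin_cases j <;> simp_all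
    exact_mod_cast h

end Pool.Agent.Q231.NewtonPyr
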